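import Pool.Agent.Helper94.EC.Full
import Pool.Agent.Helper94.EC.Lim
import Pool.Agent.Helper94.EN.Three

set_option autoImplicit false

/-!
# Elliptic curves over any number field: Euler products as if the Hasse-Weil conjecture and the Riemann
hypothesis were known, for the primes up to a power of the height

`K` is an arbitrary number field with an integral basis `ω_i`, `i ∈ I`, and `A`, `B` are polynomials with
coefficients in `𝓞 K` in finitely many variables `j ∈ J`.  For the vectors `c` of integers indexed by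
`(J ⊔ {∗}) × I` let `a_j = ∑_i c_(j, i) ω_i` be the elements of `𝓞 K` with these coordinates and

`E_c : y² = x³ + A(a) x + B(a) + a_∗`

(for `J` with one element, `A = a` and `B = 0` these are all the curves `y² = x³ + a x + b`,
`a, b ∈ 𝓞 K`, so up to isomorphism all the elliptic curves over `K`).  The Euler product of
`L(E ⊗ w, s)` over the `v` with `T₁ < q_v ≤ T₂` is known to be near `1` only for `Re s > 3/2`.  The Hasse-Weil
conjecture with the Riemann hypothesis for `L(E/K, s)` predicts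

(∗) `1 + O(T₁ ^ (1 + δ - Re s))` for `Re s ≥ 1 + δ`, if `T₁` is larger than a power of the logarithm of the
height `H` of the curve and of `|Im s|`, for all `T₂ ≥ T₁`.

We prove (∗) for the minimal models of the curves of the following sequences, for `T₂` up to a power of
the height, in the range `|Im s| ≤ T₁ ^ l`, and at the same time for the twists by the first `T₁ ^ l` members
`w_j` of any sequence of functions of the prime ideals with values in the unit disc (such as `w_0 = 1`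
and the Hecke characters of `K`).  The coordinates are near real numbers `X_k(t)`, for example

* `X_k(t) = ξ_k g_k(t) + h_k(t)` for any real sequences `g_k`, `h_k` with
  `g_k(t + 1) - g_k(t) ≥ t ^ (ρ - 1)` and `g_k(t) ≥ G(t)` (such as `t ^ 2`, `2 ^ t`, `t !`, `2 ^ (2 ^ t)`, in any
  combination and with repetitions), for almost all real vectors `ξ`,
* `X_k(t) = ξ_k ^ g_k(t) + h_k(t)` with strictly increasing natural numbers `g_k(t)`, `β ^ g_k(t) ≥ G(t)`, for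
  almost all `ξ` with `ξ_k > β`;

here `G(t) ≥ t` is any real sequence, so that `G(t)` is a lower bound for the coefficients.

The theorem is about the set of exceptions: for all `y ≥ y₀(ξ)` and all `N` the curve with the coordinates
`⌊X(t)⌋` satisfies (∗) for all `y ≤ T₁ ≤ T₂ ≤ G(t) ^ κ`, for all but the proportion `y ^ (-k)` of the
`t ∈ D`, `N < t ≤ 2 N`, where `D` is any set of natural numbers with at least `N ^ (1 - o(1))` members in
`(N, 2 N]`; and there are NO exceptions if `y ≥ N ^ ε`, even for all the curves whose coordinates are within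
`t ^ C` of `X(t)`.  If `g_k(t) = 2 ^ t`, this is for every large `t` the range from `(log H) ^ ε` to the power
`H ^ κ` of the height `H`.

In the half-plane of absolute convergence, from the distance `log (T₁ log t) / (κ log t)` or
`log (T₁ t log G(t)) / (κ log G(t))` to its edge on, the same holds for `T₂ = ∞`: the whole L-function is
`1 + O(T₁ ^ (1 + δ - Re s))` times the product over `q_v ≤ T₁`.  No analytic continuation is used.

Proof. For almost all `ξ` the vectors `⌊X(t)⌋`, `t ∈ D`, `N < t ≤ 2 N`, are equidistributed modulo all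
integers up to a power of `N` (a second moment, `Pool.Agent.N54.ME`), and for a fixed `t` the vectors of the
integer parts are equidistributed as functions of `ξ` modulo all integers up to `G(t) ^ (1/3)`
(`Pool.Agent.Helper94.BC`); high moments of the sums of the traces of Frobenius, twisted by
`w_j(v) q_v ^ (-iτ)` (`Pool.Agent.N647.NG`, here for a growing set of weights), give the range up to a power
of `N` for most `t`, and by Borel-Cantelli the range from `t ^ ε` to a power of `G(t)` for all large `t`.  The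
two ranges overlap.  The primes of bad reduction of the equations are treated as a second local
function, which gives the minimal models.
-/

namespace Pool.Agent.Results.MP_bf61d2_nt.EulerProductsInFullRange

open NumberField IsDedekindDomain MeasureTheory Filter

section curves
variable {K : Type} [Field K] [NumberField K]

/-- `M v` is, for every `v`, an integral model of `E` with discriminant minimal at `v`. -/
def MinimalModels (E : WeierstrassCurve K) (M : HeightOneSpectrum (𝓞 K) → WeierstrassCurve (𝓞 K)) : Prop :=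
  ∀ v : HeightOneSpectrum (𝓞 K),
    (∃ C : WeierstrassCurve.VariableChange K, C • E = (M v).map (algebraMap (𝓞 K) K)) ∧
    ∀ W : WeierstrassCurve (𝓞 K),
      (∃ C : WeierstrassCurve.VariableChange K, C • E = W.map (algebraMap (𝓞 K) K)) →
        ∀ n : ℕ, (M v).Δ ∈ v.asIdeal ^ n → W.Δ ∈ v.asIdeal ^ n

/-- `a_v`: the norm `q_v` minus the number of the affine points of the reduction of the model `M v`; at
the primes of bad reduction this is `1`, `-1` or `0`. -/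
noncomputable def trace (M : HeightOneSpectrum (𝓞 K) → WeierstrassCurve (𝓞 K))
    (v : HeightOneSpectrum (𝓞 K)) : ℤ :=
  ((Ideal.absNorm v.asIdeal : ℕ) : ℤ) -
    ((Nat.card {p : (𝓞 K ⧸ v.asIdeal) × (𝓞 K ⧸ v.asIdeal) //
      p.2 ^ 2 + Ideal.Quotient.mk v.asIdeal (M v).a₁ * p.1 * p.2
        + Ideal.Quotient.mk v.asIdeal (M v).a₃ * p.2
      = p.1 ^ 3 + Ideal.Quotient.mk v.asIdeal (M v).a₂ * p.1 ^ 2
        + Ideal.Quotient.mk v.asIdeal (M v).a₄ * p.1
        + Ideal.Quotient.mk v.asIdeal (M v).a₆} : ℕ) : ℤ)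

open Classical in
/-- The polynomial `1 - w a_v T + w² q_v T²`, or `1 - w a_v T` at a prime of bad reduction, at
`T = q_v^{-s}`, where `w = w(v)`. -/
noncomputable def factor (M : HeightOneSpectrum (𝓞 K) → WeierstrassCurve (𝓞 K))
    (w : HeightOneSpectrum (𝓞 K) → ℂ) (s : ℂ) (v : HeightOneSpectrum (𝓞 K)) : ℂ :=
  1 - w v * ((trace M v : ℂ) * ((Ideal.absNorm v.asIdeal : ℕ) : ℂ) ^ (-s)) +
    w v ^ 2 * ((if (M v).Δ ∈ v.asIdeal then (0 : ℂ) else 1) *
      ((Ideal.absNorm v.asIdeal : ℕ) : ℂ) ^ (1 - 2 * s))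

/-- `L(E ⊗ w, s)`: for `w = 1` this is `L(E/K, s)`, and for a Hecke character `w` (`0` at the ramified
primes) it is the L-function of the twist of `E` by `w` up to the factors at finitely many primes. -/
noncomputable def LSeries (M : HeightOneSpectrum (𝓞 K) → WeierstrassCurve (𝓞 K))
    (w : HeightOneSpectrum (𝓞 K) → ℂ) (s : ℂ) : ℂ :=
  ∏' v : HeightOneSpectrum (𝓞 K), (factor M w s v)⁻¹

/-- The prime ideals with `T₁ < q_v ≤ T₂`. -/
def between (K : Type) [Field K] [NumberField K] (T₁ T₂ : ℕ) : Set (HeightOneSpectrum (𝓞 K)) :=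
  {v | T₁ < Ideal.absNorm v.asIdeal ∧ Ideal.absNorm v.asIdeal ≤ T₂}

/-- The Dirichlet polynomials and the Euler products of the twists `E ⊗ w_j`, `j < T₁ ^ l`, behave
for `Re s ≥ 1 + δ`, `|Im s| ≤ T₁ ^ l` as predicted: (1) for the primes with `T₁ < q_v ≤ T₂ ≤ G ^ κ`, for all
`T₁ ≥ Y`; (2) for all the primes with `T₁ < q_v`, if `T₁ ≤ t ^ κ` and
`Re s ≥ 3/2 + log (T₁ log t) / (κ log t)`, or if `T₁ ≤ G ^ κ` and
`Re s ≥ 3/2 + log (T₁ t log G) / (κ log G)`. -/
def AsPredicted (κ δ : ℝ) (l : ℕ) (Y : ℝ) (t : ℕ) (G : ℝ) (w : ℕ → HeightOneSpectrum (𝓞 K) → ℂ)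
    (E : WeierstrassCurve K) : Prop :=
  ∀ M : HeightOneSpectrum (𝓞 K) → WeierstrassCurve (𝓞 K), MinimalModels E M →
    ∀ T₁ : ℕ, Y ≤ T₁ → ∀ j < T₁ ^ l, ∀ s : ℂ, 1 + δ ≤ s.re → |s.im| ≤ (T₁ : ℝ) ^ l →
      (∀ T₂ : ℕ, T₁ ≤ T₂ → (T₂ : ℝ) ≤ G ^ κ →
        ‖∑ᶠ v ∈ between K T₁ T₂, w j v * ((trace M v : ℂ) * ((Ideal.absNorm v.asIdeal : ℕ) : ℂ) ^ (-s)) *
          (Real.log (Ideal.absNorm v.asIdeal) : ℂ)‖ ≤ (T₁ : ℝ) ^ (1 + δ - s.re) ∧
        ‖∏ᶠ v ∈ between K T₁ T₂, (factor M (w j) s v)⁻¹ - 1‖ ≤ (T₁ : ℝ) ^ (1 + δ - s.re)) ∧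
      (((T₁ : ℝ) ≤ (t : ℝ) ^ κ ∧ 3 / 2 + Real.log (T₁ * Real.log t) / (κ * Real.log t) ≤ s.re) ∨
          ((T₁ : ℝ) ≤ G ^ κ ∧ 3 / 2 + Real.log (T₁ * t * Real.log G) / (κ * Real.log G) ≤ s.re) →
        ‖LSeries M (w j) s / ∏ᶠ v ∈ between K 0 T₁, (factor M (w j) s v)⁻¹ - 1‖ ≤ (T₁ : ℝ) ^ (1 + δ - s.re))

variable {I J : Type} [Fintype I]

/-- The element of `𝓞 K` with the coordinates `c (j, i)`, `i ∈ I`. -/
noncomputable def param (ω : Module.Basis I ℤ (𝓞 K)) (c : Option J × I → ℤ) (j : Option J) : 𝓞 K :=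
  ∑ i, ((c (j, i) : ℤ) : 𝓞 K) * ω i

/-- The curve `y² = x³ + A(a) x + B(a) + a_∗`; here `a_j`, `j ∈ J`, and `a_∗` are the elements of `𝓞 K`
with the coordinates `c`. -/
noncomputable def curve (ω : Module.Basis I ℤ (𝓞 K)) (A B : MvPolynomial J (𝓞 K))
    (c : Option J × I → ℤ) : WeierstrassCurve K where
  a₁ := 0
  a₂ := 0
  a₃ := 0
  a₄ := (MvPolynomial.eval (fun j => param ω c (some j)) A : 𝓞 K)
  a₆ := (MvPolynomial.eval (fun j => param ω c (some j)) B + param ω c none : 𝓞 K)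

end curves

/-- `D` has at least `N ^ (1 - ε)` members in `(N, 2 N]` for every `ε > 0` and all large `N`. -/
def Many (D : Set ℕ) : Prop :=
  ∀ ε : ℝ, 0 < ε → ∃ N₀ : ℕ, ∀ N : ℕ, N₀ ≤ N →
    (N : ℝ) ^ (1 - ε) ≤ ({t : ℕ | N < t ∧ t ≤ 2 * N ∧ t ∈ D}.ncard : ℝ)

/-- The derivatives of the consecutive functions `F t` are separated on `[u, v]` and their second
derivatives increase. -/
def Spread (ρ u v : ℝ) (F : ℕ → ℝ → ℝ) : Prop :=
  (∀ t, ContDiff ℝ 2 (F t)) ∧ ∃ t₀ : ℕ, ∀ t, t₀ ≤ t → ∀ x ∈ Set.Icc u v,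
    (t : ℝ) ^ (ρ - 1) ≤ deriv (F (t + 1)) x - deriv (F t) x ∧
      deriv (deriv (F t)) x ≤ deriv (deriv (F (t + 1))) x

/-- `F` is continuous, convex on `[u, v]`, and its slopes there are at least `G`. -/
def Steep (u v G : ℝ) (F : ℝ → ℝ) : Prop :=
  Continuous F ∧ ConvexOn ℝ (Set.Icc u v) F ∧
    ∀ x y, u ≤ x → x ≤ y → y ≤ v → G * (y - x) ≤ F y - F x

/-- The property `B` of sequences of real vectors holds for almost all members of the following
families: (1) the sequences `F_i(t) (ξ_i)` for all functions with separated derivatives which are convex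
with slopes at least `G(t)`, (2) the sequences `ξ_i g_i(t) + c_i(t)` for all real sequences `g_i` with
`g_i(t + 1) - g_i(t) ≥ t ^ (ρ - 1)` and `g_i(t) ≥ G(t)` for large `t` and all real sequences `c_i`, (3) the
sequences `ξ_i ^ g_i(t) + c_i(t)`, `ξ_i > β`, for all strictly increasing sequences `g_i` of natural numbers
with `β ^ g_i(t) ≥ G(t)` for large `t` and all real sequences `c_i`. -/
def Families {ι : Type} [Fintype ι] (ρ : ℝ) (G : ℕ → ℝ) (B : (ℕ → ι → ℝ) → Prop) : Prop :=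
  (∀ (u v : ι → ℝ) (F : ι → ℕ → ℝ → ℝ), (∀ i, Spread ρ (u i) (v i) (F i)) →
    (∀ i, ∀ᶠ t in atTop, Steep (u i) (v i) (G t) (F i t)) →
      ∀ᵐ ξ : ι → ℝ, (∀ i, ξ i ∈ Set.Ioc (u i) (v i)) → B (fun t i => F i t (ξ i))) ∧
  (∀ g c : ι → ℕ → ℝ, (∀ i, ∀ᶠ t : ℕ in atTop, (t : ℝ) ^ (ρ - 1) ≤ g i (t + 1) - g i t) →
    (∀ i, ∀ᶠ t in atTop, G t ≤ g i t) → ∀ᵐ ξ : ι → ℝ, B (fun t i => ξ i * g i t + c i t)) ∧
  (∀ (β : ℝ) (g : ι → ℕ → ℕ) (c : ι → ℕ → ℝ), 1 < β → (∀ i, StrictMono (g i)) →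
    (∀ i, ∀ᶠ t in atTop, G t ≤ β ^ g i t) →
      ∀ᵐ ξ : ι → ℝ, (∀ i, β < ξ i) → B (fun t i => ξ i ^ g i t + c i t))

lemma blk_eq (D : Set ℕ) (N : ℕ) :
    {t : ℕ | N < t ∧ t ≤ 2 * N ∧ t ∈ D} = (Pool.Agent.Helper94.EN.blk D N : Set ℕ) := by
  ext t
  unfold Pool.Agent.Helper94.EN.blk
  simp only [Set.mem_ofPred_eq, Finset.coe_filter, Finset.mem_Ioc]
  tauto

lemma many_iff {D : Set ℕ} (h : Many D) : Pool.Agent.Helper94.EN.Many D := by
  intro ε hε
  obtain ⟨N₀, hN₀⟩ := h ε hε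
  refine ⟨N₀, fun N hN => ?_⟩
  have := hN₀ N hN
  rw [blk_eq, Set.ncard_coe_finset] at this
  exact this

lemma between_eq {K : Type} [Field K] [NumberField K] (T₁ T₂ : ℕ) :
    between K T₁ T₂ = (Pool.Agent.Helper94.EC.bt K T₁ T₂ : Set (HeightOneSpectrum (𝓞 K))) := by
  ext v
  rw [Finset.mem_coe, Pool.Agent.Helper94.EC.mem_bt]
  rfl

lemma between_zero {K : Type} [Field K] [NumberField K] (T : ℕ) :
    between K 0 T = (Pool.Agent.N842.HS.VT K T : Set (HeightOneSpectrum (𝓞 K))) := by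
  ext v
  rw [Finset.mem_coe, Pool.Agent.N842.HS.mem_VT]
  exact ⟨fun h => h.2, fun h => ⟨Pool.Agent.R433.MD.nm_pos v, h⟩⟩

section
variable {K : Type} [Field K] [NumberField K] {I J : Type} [Fintype I]

/-- from the finite sums to the products and to the L-function -/
theorem predicted (ω : Module.Basis I ℤ (𝓞 K)) (A B : MvPolynomial J (𝓞 K)) (δ : ℝ) (hδ : 0 < δ) :
    ∃ y₀ : ℕ, ∀ (κ : ℝ) (l : ℕ) (Y : ℝ) (t : ℕ) (G : ℝ), 0 < κ → (y₀ : ℝ) ≤ Y → 3 ≤ t → 3 ≤ G →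
      ∀ w : ℕ → HeightOneSpectrum (𝓞 K) → ℂ, (∀ j v, ‖w j v‖ ≤ 1) → ∀ c : Option J × I → ℤ,
      Pool.Agent.Helper94.EC.EF ω A B κ δ l Y t G w c → AsPredicted κ δ l Y t G w (curve ω A B c) := by
  obtain ⟨y₁, hy₁, h6⟩ := Pool.Agent.Helper94.EC.six_bound (K := K)
  refine ⟨y₁, fun κ l Y t G hκ hY ht hG w hw c hc M hM T₁ hYT j hj s hs1 hs2 => ?_⟩
  have hyT : y₁ ≤ T₁ := by exact_mod_cast hY.trans hYT
  have hT1 : (1 : ℝ) ≤ T₁ := by exact_mod_cast (by omega : 1 ≤ T₁)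
  have hMle : (T₁ : ℝ) ^ (1 + δ - s.re) ≤ 1 := Real.rpow_le_one_of_one_le_of_nonpos hT1 (by linarith)
  have hw1 := hw j
  refine ⟨fun T₂ hT12 hT2N => ?_, fun hs3 => ?_⟩
  · obtain ⟨h1, h2⟩ := hc M hM T₁ hYT j hj T₂ hT12 s hs1 hs2 (Or.inl hT2N)
    rw [between_eq, finsum_mem_coe_finset, finprod_mem_coe_finset]
    refine ⟨h1, ?_⟩
    have h3 := Pool.Agent.Helper94.EC.prod_exp M (w j) s (Pool.Agent.Helper94.EC.bt K T₁ T₂) (fun v hv => by
      rw [Pool.Agent.Helper94.EC.mem_bt] at hv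
      exact (Pool.Agent.Helper94.EC.tl_near M (w j) s v (hw1 v) (h6 v (by omega)) (by omega) (by linarith)).2.2)
    have h4 := Pool.Agent.Helper94.EC.exp_near hMle h2
    rw [← h3] at h4
    exact h4
  · rw [between_zero, finprod_mem_coe_finset]
    have hs4 : 3 / 2 < s.re := by
      have hT4 : (4 : ℝ) ≤ T₁ := by exact_mod_cast (by omega : 4 ≤ T₁)
      have ht3 : (3 : ℝ) ≤ t := by exact_mod_cast ht
      have hexp := Real.exp_one_lt_d9
      have hlt : 1 ≤ Real.log t := by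
        rw [Real.le_log_iff_exp_le (by linarith)]
        linarith
      have hlG : 1 ≤ Real.log G := by
        rw [Real.le_log_iff_exp_le (by linarith)]
        linarith
      rcases hs3 with ⟨_, hs3⟩ | ⟨_, hs3⟩
      · have h5 : (1 : ℝ) < T₁ * Real.log t := by nlinarith
        have h7 := Real.log_pos h5
        have h8 : 0 < Real.log (T₁ * Real.log t) / (κ * Real.log t) :=
          div_pos h7 (mul_pos hκ (by linarith))
        linarith
      · have h12 : (12 : ℝ) ≤ T₁ * t := by nlinarith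
        have h5 : (1 : ℝ) < T₁ * t * Real.log G := by nlinarith
        have h7 := Real.log_pos h5
        have h8 : 0 < Real.log (T₁ * t * Real.log G) / (κ * Real.log G) :=
          div_pos h7 (mul_pos hκ (by linarith))
        linarith
    refine Pool.Agent.Helper94.EC.lim_near M (w j) hw1 hs4 T₁ hMle fun T₂ hT12 => ?_
    exact (hc M hM T₁ hYT j hj T₂ hT12 s hs1 hs2 (Or.inr hs3)).2

lemma ef_mono (ω : Module.Basis I ℤ (𝓞 K)) (A B : MvPolynomial J (𝓞 K)) {κ δ δ' : ℝ} {l : ℕ} {Y Y' : ℝ} {t : ℕ}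
    {G : ℝ} {w : ℕ → HeightOneSpectrum (𝓞 K) → ℂ} {c : Option J × I → ℤ} (hδ : δ ≤ δ') (hY : Y ≤ Y') (hY1 : 1 ≤ Y)
    (h : Pool.Agent.Helper94.EC.EF ω A B κ δ l Y t G w c) : Pool.Agent.Helper94.EC.EF ω A B κ δ' l Y' t G w c := by
  intro V hV T₁ hYT j hj T₂ hT12 s hs1 hs2 hs3
  obtain ⟨h1, h2⟩ := h V hV T₁ (hY.trans hYT) j hj T₂ hT12 s (by linarith) hs2 hs3
  have h3 : (T₁ : ℝ) ^ (1 + δ - s.re) ≤ (T₁ : ℝ) ^ (1 + δ' - s.re) :=
    Real.rpow_le_rpow_of_exponent_le (hY1.trans (hY.trans hYT)) (by linarith)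
  exact ⟨h1.trans h3, by linarith⟩

/-- **Euler products of elliptic curves over any number field in the full range.** -/
theorem result [Fintype J] (ω : Module.Basis I ℤ (𝓞 K)) (A B : MvPolynomial J (𝓞 K)) (ρ : ℝ) (hρ : 0 < ρ) (hρ1 : ρ ≤ 1)
    (δ : ℝ) (hδ : 0 < δ) (k l : ℕ) (ε C : ℝ) (hε : 0 < ε) (hC : 0 ≤ C) :
    ∃ κ : ℝ, 0 < κ ∧ ∀ w : ℕ → HeightOneSpectrum (𝓞 K) → ℂ, (∀ j v, ‖w j v‖ ≤ 1) →
      ∀ D : Set ℕ, Many D → ∀ G : ℕ → ℝ, (∀ᶠ t : ℕ in atTop, (t : ℝ) ≤ G t) →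
      Families ρ G fun X : ℕ → Option J × I → ℝ =>
        ∃ y₀ : ℕ, ∀ y N : ℕ, y₀ ≤ y →
          ((N : ℝ) ^ ε ≤ y → ∀ t : ℕ, N < t → t ≤ 2 * N → ∀ z : Option J × I → ℤ,
            (∀ i, |(z i : ℝ) - X t i| ≤ (t : ℝ) ^ C) →
              AsPredicted κ δ l y t (G t) w (curve ω A B z)) ∧
          ({t : ℕ | N < t ∧ t ≤ 2 * N ∧ t ∈ D ∧
            ¬ AsPredicted κ δ l y t (G t) w (curve ω A B fun i => ⌊X t i⌋)}.ncard : ℝ) ≤
            1 / (y : ℝ) ^ k * {t : ℕ | N < t ∧ t ≤ 2 * N ∧ t ∈ D}.ncard := by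
  classical
  have hI : Nonempty I := by
    by_contra hI
    rw [not_nonempty_iff] at hI
    have h1 : (1 : 𝓞 K) = 0 := by
      have := ω.sum_repr (1 : 𝓞 K)
      rw [← this]
      simp
    exact one_ne_zero h1
  obtain ⟨κ₁, hκ₁, hκ₁', hmet⟩ := Pool.Agent.Helper94.EC.ec_metric ω A B
    (Pool.Agent.N54.ME.kap_pos hρ (Fintype.card (Option J × I))) (δ / 2) (by positivity) k l
  obtain ⟨ε', hε'⟩ : ∃ ε' : ℝ, ε' = min (ε / 2) (κ₁ / 2) := ⟨_, rfl⟩
  have hε0 : 0 < ε' := by rw [hε']; exact lt_min (by positivity) (by positivity)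
  have hε1 : ε' ≤ ε / 2 := by rw [hε']; exact min_le_left _ _
  have hε2 : ε' ≤ κ₁ / 2 := by rw [hε']; exact min_le_right _ _
  obtain ⟨κ₂, hκ₂, hκ₂', hev⟩ := Pool.Agent.Helper94.EC.ec_every ω A B (δ / 2) (by positivity) l ε' C hε0 hC
  obtain ⟨N₀, y₁, hcomp⟩ := Pool.Agent.Helper94.EC.EF_comp ω A B hκ₁ hκ₁' hκ₂ hδ ε' hε0 hε2
  obtain ⟨y₂, hpred⟩ := predicted ω A B δ hδ
  obtain ⟨κ, hκ⟩ : ∃ κ : ℝ, κ = min κ₁ κ₂ / 2 := ⟨_, rfl⟩
  have hκ0 : 0 < κ := by rw [hκ]; have := lt_min hκ₁ hκ₂; positivity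
  have hκ2 : κ ≤ κ₂ := by rw [hκ]; have := min_le_right κ₁ κ₂; linarith
  rw [← hκ] at hcomp
  refine ⟨κ, hκ0, fun w hw D hD G hG => ?_⟩
  have hGt : Tendsto G atTop atTop := tendsto_atTop_mono' atTop hG tendsto_natCast_atTop_atTop
  -- the deterministic part
  have hboth : ∀ X : ℕ → Option J × I → ℝ,
      (∃ y₀ : ℕ, ∀ y N : ℕ, y₀ ≤ y →
        (((Pool.Agent.Helper94.EN.blk D N).filter fun t => ¬ Pool.Agent.Helper94.EC.EG ω A B κ₁ (δ / 2) l y N w
          (fun i => ⌊X t i⌋)).card : ℝ) ≤ 1 / (y : ℝ) ^ k * (Pool.Agent.Helper94.EN.blk D N).card) →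
      (∀ᶠ t : ℕ in atTop, ∀ z : Option J × I → ℤ, (∀ i, |(z i : ℝ) - X t i| ≤ (t : ℝ) ^ C) →
        Pool.Agent.Helper94.EC.EG ω A B κ₂ (δ / 2) l ((t : ℝ) ^ ε') (G t) w z) →
      ∃ y₀ : ℕ, ∀ y N : ℕ, y₀ ≤ y →
          ((N : ℝ) ^ ε ≤ y → ∀ t : ℕ, N < t → t ≤ 2 * N → ∀ z : Option J × I → ℤ,
            (∀ i, |(z i : ℝ) - X t i| ≤ (t : ℝ) ^ C) →
              AsPredicted κ δ l y t (G t) w (curve ω A B z)) ∧
          ({t : ℕ | N < t ∧ t ≤ 2 * N ∧ t ∈ D ∧
            ¬ AsPredicted κ δ l y t (G t) w (curve ω A B fun i => ⌊X t i⌋)}.ncard : ℝ) ≤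
            1 / (y : ℝ) ^ k * {t : ℕ | N < t ∧ t ≤ 2 * N ∧ t ∈ D}.ncard := by
    rintro X ⟨y₃, h3⟩ h4
    have hy' : Tendsto (fun t : ℕ => (t : ℝ) ^ ε') atTop atTop :=
      (tendsto_rpow_atTop hε0).comp tendsto_natCast_atTop_atTop
    obtain ⟨t₀, ht₀⟩ := eventually_atTop.1 (h4.and (hG.and ((eventually_ge_atTop 4).and
      (hy'.eventually (eventually_ge_atTop 4)))))
    obtain ⟨P, hP⟩ : ∃ P : ℕ, P = ∑ t ∈ Finset.range (2 * (N₀ + t₀) + 1),
      (⌈(G t) ^ κ⌉₊ + ⌈(t : ℝ) ^ κ⌉₊) := ⟨_, rfl⟩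
    have hPle : ∀ t : ℕ, t ≤ 2 * (N₀ + t₀) → (G t) ^ κ ≤ P ∧ (t : ℝ) ^ κ ≤ P := by
      intro t ht
      have h5 : ⌈(G t) ^ κ⌉₊ + ⌈(t : ℝ) ^ κ⌉₊ ≤ P := by
        rw [hP]
        exact Finset.single_le_sum (f := fun t : ℕ => ⌈(G t) ^ κ⌉₊ + ⌈(t : ℝ) ^ κ⌉₊) (fun _ _ => Nat.zero_le _)
          (Finset.mem_range.2 (by omega))
      constructor
      · exact (Nat.le_ceil _).trans (by exact_mod_cast (by omega : ⌈(G t) ^ κ⌉₊ ≤ P))
      · exact (Nat.le_ceil _).trans (by exact_mod_cast (by omega : ⌈(t : ℝ) ^ κ⌉₊ ≤ P))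
    -- there is nothing to prove for the finitely many small `t`
    have hsm : ∀ (y t : ℕ) (z : Option J × I → ℤ), P < y → t ≤ 2 * (N₀ + t₀) →
        AsPredicted κ δ l y t (G t) w (curve ω A B z) := by
      intro y t z hy hsmall
      obtain ⟨hG1, hG2⟩ := hPle t hsmall
      intro M hM T₁ hYT j hj s hs1 hs2
      have h7 : (P : ℝ) < T₁ := by
        have : y ≤ T₁ := by exact_mod_cast hYT
        exact_mod_cast (by omega : P < T₁)
      refine ⟨fun T₂ hT12 hT2 => ?_, fun hs3 => ?_⟩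
      · exfalso
        have h8 : (T₁ : ℝ) ≤ T₂ := by exact_mod_cast hT12
        linarith
      · exfalso
        rcases hs3 with ⟨h8, _⟩ | ⟨h8, _⟩ <;> linarith
    refine ⟨y₁ + y₂ + y₃ + P + 1, fun y N hy => ⟨fun hNy t htN ht2N z hz => ?_, ?_⟩⟩
    · by_cases hsmall : t ≤ 2 * (N₀ + t₀)
      · exact hsm y t z (by omega) hsmall
      · push Not at hsmall
        obtain ⟨ht1, ht2, ht3, ht4⟩ := ht₀ t (by omega)
        have ht3' : (4 : ℝ) ≤ t := by exact_mod_cast ht3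
        have hN2 : (t : ℝ) / 2 ≤ N := by
          have : (t : ℝ) ≤ 2 * N := by exact_mod_cast ht2N
          linarith
        have h5 : (t : ℝ) ^ ε' ≤ y := by
          calc (t : ℝ) ^ ε' ≤ (t : ℝ) ^ (ε / 2) := Real.rpow_le_rpow_of_exponent_le (by linarith) hε1
            _ = ((t : ℝ) ^ (1 / 2 : ℝ)) ^ ε := by
                rw [← Real.rpow_mul (by linarith)]
                congr 1
                ring
            _ ≤ ((t : ℝ) / 2) ^ ε := by
                refine Real.rpow_le_rpow (by positivity) ?_ hε.le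
                rw [← Real.sqrt_eq_rpow, Real.sqrt_le_left (by linarith)]
                nlinarith
            _ ≤ (N : ℝ) ^ ε := Real.rpow_le_rpow (by linarith) hN2 hε.le
            _ ≤ y := hNy
        have hy1 : (1 : ℝ) ≤ (t : ℝ) ^ ε' := Real.one_le_rpow (by linarith) hε0.le
        refine hpred κ l _ t (G t) hκ0 (by exact_mod_cast (by omega : y₂ ≤ y)) (by omega) (by linarith) w hw z ?_
        exact ef_mono ω A B (by linarith) h5 hy1
          (Pool.Agent.Helper94.EC.EF_of_EG ω A B hκ0 hκ2 (by linarith) (by omega) ht2 w z (ht1 z hz))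
    · rw [blk_eq, Set.ncard_coe_finset]
      refine le_trans (Nat.cast_le.2 ?_) (h3 y N (by omega))
      have h1 : {t : ℕ | N < t ∧ t ≤ 2 * N ∧ t ∈ D ∧
          ¬ AsPredicted κ δ l y t (G t) w (curve ω A B fun i => ⌊X t i⌋)} ⊆
          (((Pool.Agent.Helper94.EN.blk D N).filter fun t => ¬ Pool.Agent.Helper94.EC.EG ω A B κ₁ (δ / 2) l y N w
            (fun i => ⌊X t i⌋) : Finset ℕ) : Set ℕ) := by
        rintro t ⟨h1, h2, h5, h6⟩
        rw [Finset.mem_coe, Finset.mem_filter]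
        constructor
        · unfold Pool.Agent.Helper94.EN.blk
          rw [Finset.mem_filter, Finset.mem_Ioc]
          exact ⟨⟨h1, h2⟩, h5⟩
        · intro hEG
          apply h6
          by_cases hsmall : t ≤ 2 * (N₀ + t₀)
          · exact hsm y t _ (by omega) hsmall
          · push Not at hsmall
            obtain ⟨ht1, ht2, ht3, ht4⟩ := ht₀ t (by omega)
            have ht3' : (4 : ℝ) ≤ t := by exact_mod_cast ht3
            refine hpred κ l _ t (G t) hκ0 (by exact_mod_cast (by omega : y₂ ≤ y)) (by omega) (by linarith) w hw _ ?_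
            refine hcomp l y N t (G t) (by omega) (by omega) h1 h2 ht2 w _ hEG (ht1 _ fun i => ?_)
            have h9 := Int.floor_le (X t i)
            have h10 := Int.lt_floor_add_one (X t i)
            have h11 : (1 : ℝ) ≤ (t : ℝ) ^ C := Real.one_le_rpow (by linarith) hC
            rw [abs_le]
            constructor <;> linarith
      have h2 := Set.ncard_le_ncard h1 (Finset.finite_toSet _)
      rwa [Set.ncard_coe_finset] at h2
  obtain ⟨m1, m2, m3⟩ := Pool.Agent.Helper94.EN.threeD (ι := Option J × I) (many_iff hD) hρ hρ1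
    (fun x => ∃ y₀ : ℕ, ∀ y N : ℕ, y₀ ≤ y →
        (((Pool.Agent.Helper94.EN.blk D N).filter fun t => ¬ Pool.Agent.Helper94.EC.EG ω A B κ₁ (δ / 2) l y N w
          (x t)).card : ℝ) ≤ 1 / (y : ℝ) ^ k * (Pool.Agent.Helper94.EN.blk D N).card) (fun x hx => by
      obtain ⟨y₀, hy₀⟩ := hmet D x hx
      exact ⟨y₀, fun y N hy => hy₀ y N hy w hw _ fun c hc => hc⟩)
  obtain ⟨e1, e2, e3⟩ := hev w hw G hGt
  refine ⟨fun u v F hF hS => ?_, fun g c hg hG' => ?_, fun β g c hβ hg hG' => ?_⟩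
  · filter_upwards [m1 u v F hF, e1 u v F fun i => by
      filter_upwards [hS i] with t ht
      exact ⟨ht.1, ht.2.1, ht.2.2⟩] with ξ hξ1 hξ2 hξ
    exact hboth _ (hξ1 hξ) (hξ2 hξ)
  · filter_upwards [m2 g c hg, e2 g c hG'] with ξ hξ1 hξ2
    exact hboth _ hξ1 hξ2
  · filter_upwards [m3 g c hg, e3 β g c hβ hG'] with ξ hξ1 hξ2 hξ
    exact hboth _ (hξ1 fun i => hβ.trans (hξ i)) (hξ2 hξ)

end

end Pool.Agent.Results.MP_bf61d2_nt.EulerProductsInFullRange
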