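import Pool.Agent.Helper29X1.WG.WtC

/-!
# Elliptic curves over number fields: zeros and poles of irreducible twists on the edge

`K` is an arbitrary number field and `E` an elliptic curve over `K`, given by an integral Weierstrass
equation `W` with discriminant `≠ 0` (every elliptic curve over `K` has one).  Let `ρ` be any
irreducible unitary representation of the Weil group of `K`, of any dimension: for example a Hecke
character, an Artin representation, or the induced representation `Ind χ` of a Hecke character `χ` of a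
finite extension `F`, in which case `L(E ⊗ ρ, s) = L(E/F ⊗ χ, s)`.  The theorem says that the number
`n` of zeros and poles of `L(E ⊗ ρ, s)` on the edge `Re s = 3/2`, with multiplicities, satisfies
`n² ≤ 4 min(1, δ)`, and `n² ≤ 2 min(1, δ)` if `ρ` is not self-dual up to a twist by some `N^{-iτ}`; here
`δ` is the mean value of a weight which dominates the set of the primes `v` with `tr ρ(Frob_v) ≠ 0`.
So `n ≤ 2` always, `n ≤ 1` if `δ < 1` or if `ρ` is not self-dual up to twist, and there are no zeros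
and no poles at all on the line if `δ < 1/4`, or if `δ < 1/2` and `ρ` is not self-dual up to twist.

The weights are the functions `∑ c_j n_j(v)` for finite extensions `F_j` of `K` and real numbers `c_j`,
`n_j(v)` the number of the primes of `F_j` above `v` of degree one over `K`; the mean value is `∑ c_j`.

* For `F_1 = K`, `c_1 = 1` the weight is one and `δ = 1`.
* If `tr ρ` is zero at the primes without a prime of degree one in `F`, for example for `ρ = Ind χ`, and
  `F` has `r` automorphisms over `K`, for example `F/K` is Galois of degree `r`, then `n_F(v)/r` is a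
  dominating weight (`automorphisms` and `induced` below), and `δ = 1/r`: no zeros and no poles on the
  line for `r ≥ 5`, and for `r ≥ 3` if `ρ` is not self-dual up to twist.
* If `ρ` has finite image then by the theorem of Artin on the rational characters of a finite group the
  indicator function of the primes with `tr ρ(Frob_v) ≠ 0` is such a weight, so that `δ` can be the
  density of this set, which is less than one if `dim ρ ≥ 2`, by the theorem of Burnside.

Definitions from `Pool.Agent.N172.HS` (`Defs`, `Gr`, `Rep`, `Pa`) and `Pool.Agent.Helper29X1.WG`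
(`Tw`, `WtA`, `WtB`):

* `WRep K`: virtual representations `∑ c_j Ind χ_j` with unitary Hecke characters `χ_j` of finite
  extensions of `K` (`IsHecke`) and integers `c_j`; by the theorem of Brauer all finite-dimensional
  unitary representations of the Weil group of `K` are of this kind; `ρ.trace v`: the trace of
  Frobenius; `ρ.inner σ`: the inner product of the characters, by the formula of Mackey; `ρ.IsIrr`:
  `ρ.inner ρ = 1`;
* `tw ρ τ = ρ ⊗ N^{-iτ}`; `dual ρ`: the dual; `NonDual ρ`: for every real `τ` the inner product of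
  `tw ρ τ` and `dual ρ` is zero;
* `Wts K`: finite families of finite extensions `F_j` of `K` with real numbers `c_j`;
  `s.wt v = ∑ c_j n_j(v)`; `s.mean = ∑ c_j`; `s.Dom ρ`: at almost all `v` whose norm is a prime number
  `s.wt v ≥ 0`, and `s.wt v ≥ 1` if `ρ.trace v ≠ 0`.
-/

set_option autoImplicit false

namespace Pool.Agent.Results.MP_bf61d2_nt.IrreducibleTwistsOnTheEdge

open Complex Filter Topology NumberField IsDedekindDomain Polynomial
open Pool.Agent.N172.HS (WRep IsHecke above)
open Pool.Agent.Helper29X1.WG.SF (Wts NonDual)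

/-- The number of solutions of the affine Weierstrass equation of `V` with coordinates in `R`. -/
noncomputable def affineCount {R : Type} [CommRing R] (V : WeierstrassCurve R) : ℕ :=
  Nat.card {P : R × R // P.2 ^ 2 + V.a₁ * P.1 * P.2 + V.a₃ * P.2 =
    P.1 ^ 3 + V.a₂ * P.1 ^ 2 + V.a₄ * P.1 + V.a₆}

/-- `a_v = q_v + 1 - #E(k_v)`, `k_v` the residue field of `v` and `q_v` its number of elements; there is
one point at infinity. -/
noncomputable def frobTrace {F : Type} [Field F] [NumberField F] (W : WeierstrassCurve (𝓞 F))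
    (v : HeightOneSpectrum (𝓞 F)) : ℤ :=
  (Ideal.absNorm v.asIdeal : ℤ) + 1 - ((affineCount (W.map (Ideal.Quotient.mk v.asIdeal)) : ℤ) + 1)

/-- The Euler product `∏_v B_v(q_v^{-s})⁻¹`. -/
noncomputable def eulerProduct {F : Type} [Field F] [NumberField F]
    (B : HeightOneSpectrum (𝓞 F) → ℂ[X]) (s : ℂ) : ℂ :=
  ∏' v : HeightOneSpectrum (𝓞 F), ((B v).eval ((Ideal.absNorm v.asIdeal : ℂ) ^ (-s)))⁻¹

/-- `log |L(3/2 + iτ + ε)| / log (1/ε)`, which tends to the order of the pole at `3/2 + iτ` if
there is a meromorphic continuation to a neighbourhood. -/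
noncomputable def size {F : Type} [Field F] [NumberField F]
    (B : HeightOneSpectrum (𝓞 F) → ℂ[X]) (τ ε : ℝ) : ℝ :=
  Real.log ‖eulerProduct B (3 / 2 + τ * I + ε)‖ / Real.log (1 / ε)

/-- The polynomials `B v` are Euler factors of `E ⊗ ρ`: at all but finitely many primes
`B_v(z) = ∏ (1 - a_v γ_l z + q_v γ_l² z²)` with numbers `γ_l` of absolute value one and sum the trace of
Frobenius on `ρ` (its eigenvalues), at the others `B_v` is an arbitrary polynomial without zeros on the
circle `|z| = q_v^{-3/2}`. -/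
def IsRepTwist {F : Type} [Field F] [NumberField F] (W : WeierstrassCurve (𝓞 F)) (ρ : WRep F)
    (B : HeightOneSpectrum (𝓞 F) → ℂ[X]) : Prop :=
  (∃ M : ℕ, ∀ᶠ v in cofinite, ∃ γ : Fin M → ℂ, (∀ l, ‖γ l‖ = 1) ∧ ∑ l, γ l = ρ.trace v ∧
    ∀ z : ℂ, (B v).eval z = ∏ l, (1 - (frobTrace W v : ℂ) * (γ l * z) +
      (Ideal.absNorm v.asIdeal : ℂ) * (γ l * z) ^ 2)) ∧
  ∀ (v : HeightOneSpectrum (𝓞 F)) (τ : ℝ),
    (B v).eval ((Ideal.absNorm v.asIdeal : ℂ) ^ (-(3 / 2 + τ * I : ℂ))) ≠ 0

section

open Pool.Agent.Helper29X1.WG Pool.Agent.Helper29X1.WG.SF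

theorem size_eq {F : Type} [Field F] [NumberField F] (B : HeightOneSpectrum (𝓞 F) → ℂ[X])
    (τ : ℝ) : size B τ = Pool.Agent.W353.EF.size 1 (shift τ B) := by
  funext ε
  unfold size Pool.Agent.W353.EF.size
  rw [shift_LFun]
  have e : (((1 : ℕ) : ℂ) / 2 + 1 + ε + τ * I) = 3 / 2 + τ * I + ε := by push_cast; ring
  rw [e]
  rfl

/-- An extension `F` with `r` automorphisms gives the weight `n_F(v) / r` with mean value `1 / r`. -/
theorem automorphisms {K F : Type} [Field K] [NumberField K] [Field F] [NumberField F]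
    [Algebra K F] {ρ : WRep K} (hF : ∀ᶠ v in cofinite, above F v = ∅ → ρ.trace v = 0) :
    ∃ s : Wts K, s.Dom ρ ∧ s.mean = 1 / (Nat.card (F ≃ₐ[K] F) : ℝ) :=
  ⟨_, aut_dom hF, Wts.single_mean _ _⟩

/-- The induced representations. -/
theorem induced {K F : Type} [Field K] [NumberField K] [Field F] [NumberField F]
    [Algebra K F] {𝔣 : Ideal (𝓞 F)} {k : (F →+* ℂ) → ℤ} {t : (F →+* ℂ) → ℝ}
    {χ : Ideal (𝓞 F) →*₀ ℂ} (h : IsHecke 𝔣 k t χ) :
    ∃ s : Wts K, s.Dom (ind (K := K) h) ∧ s.mean = 1 / (Nat.card (F ≃ₐ[K] F) : ℝ) :=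
  automorphisms (F := F) (Eventually.of_forall fun v hv => ind_supp h v hv)

end

open Pool.Agent.Helper29X1.WG in
/-- **Zeros and poles of the irreducible twists of an elliptic curve on the edge.**  Let `E` be an
elliptic curve over the number field `K`, `ρ` an irreducible unitary representation of the Weil group of
`K`, and `s` a weight which dominates the support of `tr ρ`, with mean value `δ`.

* No continuation is assumed: for all real `τ` and `η > 0`, and all small `ε > 0`,
  `(log |L(E ⊗ ρ, 3/2 + iτ + ε)| / log(1/ε))² ≤ 4 min(1, δ) + η`.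
* If `L(E ⊗ ρ, s)` has a continuation which is meromorphic at all points of the line `Re s = 3/2`, then
  its orders `m_τ` at `3/2 + iτ` are finite and zero outside of a finite set, and the number
  `n = ∑ |m_τ|` of the zeros and poles on the line satisfies `n² ≤ 4 min(1, δ)`.

If `ρ` is not self-dual up to a twist by `N^{-iτ}` then both hold with `2 min(1, δ)`. -/
theorem result (K : Type) [Field K] [NumberField K] (W : WeierstrassCurve (𝓞 K)) (hΔ : W.Δ ≠ 0)
    (ρ : WRep K) (hρ : ρ.IsIrr) (s : Wts K) (hs : s.Dom ρ)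
    (B : HeightOneSpectrum (𝓞 K) → ℂ[X]) (hB : IsRepTwist W ρ B) :
    (∀ τ η : ℝ, 0 < η → ∀ᶠ ε : ℝ in 𝓝[>] 0, size B τ ε ^ 2 ≤ 4 * min 1 s.mean + η ∧
      (NonDual ρ → size B τ ε ^ 2 ≤ 2 * min 1 s.mean + η)) ∧
    ∀ Λ : ℂ → ℂ, (∀ τ : ℝ, MeromorphicAt Λ (3 / 2 + τ * I)) →
      (∀ s : ℂ, 3 / 2 < s.re → Λ s = eulerProduct B s) →
      ∃ (m : ℝ → ℤ) (S : Finset ℝ), (∀ τ : ℝ, meromorphicOrderAt Λ (3 / 2 + τ * I) = m τ) ∧
        (∀ τ ∉ S, m τ = 0) ∧ ((∑ τ ∈ S, |m τ| : ℤ) : ℝ) ^ 2 ≤ 4 * min 1 s.mean ∧
        (NonDual ρ → ((∑ τ ∈ S, |m τ| : ℤ) : ℝ) ^ 2 ≤ 2 * min 1 s.mean) := by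
  have hB' : SF.IsTwistLine W ρ B := hB
  refine ⟨fun τ η hη => ?_, fun Λ h1 h2 => ?_⟩
  · rw [size_eq]
    exact SF.ec_sizes W hΔ hρ hB' s hs τ hη
  · have e : ∀ τ : ℝ, (((1 : ℕ) : ℂ) / 2 + 1 + τ * I) = 3 / 2 + τ * I := fun τ => by
      push_cast
      ring
    obtain ⟨m, hm1, hm2⟩ := orders_gen (i := 1) (B := B)
      (fun τ => (twist_size W hΔ (SF.twist_shift hB' τ)).1) (Λ := Λ)
      (fun τ => by rw [e]; exact h1 τ)
      (fun s hs => h2 s (by
        have : ((1 : ℕ) : ℝ) / 2 + 1 = 3 / 2 := by norm_num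
        rwa [this] at hs))
    obtain ⟨S, h3, h4, h5⟩ := SF.ec_count W hΔ hρ hB' s hs hm2
    refine ⟨m, S, fun τ => ?_, fun τ hτ => ?_, h4, h5⟩
    · rw [← e]
      exact hm1 τ
    · rwa [h3, not_not] at hτ

end Pool.Agent.Results.MP_bf61d2_nt.IrreducibleTwistsOnTheEdge
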