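import Pool.Agent.Helper91K1.SP.RigS

/-!
# Symmetric powers of an elliptic curve over a number field on the edge of absolute convergence

`F` is an arbitrary number field and `E` an elliptic curve over `F`, given by an integral Weierstrass
equation `W` with discriminant `≠ 0`.  For an Artin representation `ρ` of `Gal(F̄/F)` and `d ≥ 0`,
`L(Sym^d E ⊗ ρ, s)` is the Euler product over the primes `v` of `F` whose factor is, for all but
finitely many `v`, `∏_{j=0}^d det(1 - α_v^{d-j} β_v^j q_v^{-s} ρ(Frob_v⁻¹))⁻¹`, where `α_v, β_v` are the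
zeros of `T² - a_v T + q_v`.  It converges absolutely for `Re s > 1 + d/2`; for `d = 1` and trivial `ρ`
it is `L(E/F, s)`.

Nothing is assumed about analytic continuation or automorphy.  Bessel's inequality holds for the sizes
`log |L(s_0 + ε)| / log(1/ε)` at the points `s_0` of the edge `Re s = 1 + d/2`, for all irreducible
`ρ` together; the bound is given by the **real** points of the even symmetric powers `Sym^{2j} E`,
`j ≤ d`.  If there are meromorphic continuations to neighbourhoods of the points, the same holds for the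
orders, and we determine what happens in the case of equality.  For example, if `L(Sym²E, s)` has no pole
at `s = 2`, then no irreducible Artin twist of `E` has a zero or a pole on `Re s = 3/2` outside
`s = 3/2`.
-/

set_option autoImplicit false

namespace Pool.Agent.Results.MP_bf61d2_nt.SymmetricPowers

open Complex Filter Topology NumberField IsDedekindDomain Polynomial

/-- The number of solutions of the affine Weierstrass equation of `V` with coordinates in `R`. -/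
noncomputable def affineCount {R : Type} [CommRing R] (V : WeierstrassCurve R) : ℕ :=
  Nat.card {P : R × R // P.2 ^ 2 + V.a₁ * P.1 * P.2 + V.a₃ * P.2 =
    P.1 ^ 3 + V.a₂ * P.1 ^ 2 + V.a₄ * P.1 + V.a₆}

/-- `a_v = q_v + 1 - #E(k_v)`, `k_v` the residue field of `v` and `q_v` its number of elements; there is
one point at infinity. -/
noncomputable def frobTrace {F : Type} [Field F] [NumberField F] (W : WeierstrassCurve (𝓞 F))
    (v : HeightOneSpectrum (𝓞 F)) : ℤ :=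
  (Ideal.absNorm v.asIdeal : ℤ) + 1 - ((affineCount (W.map (Ideal.Quotient.mk v.asIdeal)) : ℤ) + 1)

/-- `σ` is a Frobenius element at the prime `v` of `F`: there is a maximal ideal `Q` above `v` of the
ring of all algebraic integers with `σ x ≡ x ^ q_v` modulo `Q` for all `x`. -/
def IsFrobenius {F : Type} [Field F] [NumberField F] (v : HeightOneSpectrum (𝓞 F))
    (σ : Gal(AlgebraicClosure F/F)) : Prop :=
  ∃ Q : Ideal (𝓞 (AlgebraicClosure F)), Q.IsMaximal ∧
    Q.comap (algebraMap (𝓞 F) (𝓞 (AlgebraicClosure F))) = v.asIdeal ∧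
    ∀ x : 𝓞 (AlgebraicClosure F), σ • x - x ^ Ideal.absNorm v.asIdeal ∈ Q

/-- `ρ` is an Artin representation of `F`: it is trivial on an open subgroup of `Gal(F̄/F)`. -/
def IsArtin {F : Type} [Field F] [NumberField F] {n : ℕ}
    (ρ : Representation ℂ Gal(AlgebraicClosure F/F) (Fin n → ℂ)) : Prop :=
  ∃ U : Subgroup Gal(AlgebraicClosure F/F), IsOpen (U : Set Gal(AlgebraicClosure F/F)) ∧
    ∀ u ∈ U, ρ u = 1

/-- The polynomials `B v` are the Euler factors of `Sym^r E ⊗ ρ` at all but finitely many primes `v`: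
`B_v(z) = ∏_{j=0}^r det(1 - α^{r-j} β^j z ρ(Frob_v⁻¹))` for the zeros `α, β` of `T² - a_v T + q_v`. -/
def IsEulerFactor {F : Type} [Field F] [NumberField F] (W : WeierstrassCurve (𝓞 F)) (r : ℕ) {n : ℕ}
    (ρ : Representation ℂ Gal(AlgebraicClosure F/F) (Fin n → ℂ))
    (B : HeightOneSpectrum (𝓞 F) → ℂ[X]) : Prop :=
  ∀ᶠ v in cofinite, ∀ σ : Gal(AlgebraicClosure F/F), IsFrobenius v σ → ∀ α β : ℂ,
    α + β = (frobTrace W v : ℂ) → α * β = (Ideal.absNorm v.asIdeal : ℂ) → ∀ z : ℂ,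
    (B v).eval z = ∏ j ∈ Finset.range (r + 1),
      LinearMap.det (1 - (α ^ (r - j) * β ^ j * z) • ρ σ⁻¹)

/-- The Euler product `∏_v B_v(q_v^{-s})⁻¹`. -/
noncomputable def eulerProduct {F : Type} [Field F] [NumberField F]
    (B : HeightOneSpectrum (𝓞 F) → ℂ[X]) (s : ℂ) : ℂ :=
  ∏' v : HeightOneSpectrum (𝓞 F), ((B v).eval ((Ideal.absNorm v.asIdeal : ℂ) ^ (-s)))⁻¹

/-- `log |L(s_0 + ε)| / log (1/ε)` at the point `s_0 = 1 + r/2 + iτ` of the edge of `Sym^r`; it tends to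
the order of the pole at `s_0` if there is a meromorphic continuation to a neighbourhood. -/
noncomputable def size {F : Type} [Field F] [NumberField F]
    (B : HeightOneSpectrum (𝓞 F) → ℂ[X]) (r : ℕ) (τ ε : ℝ) : ℝ :=
  Real.log ‖eulerProduct B (1 + r / 2 + τ * I + ε)‖ / Real.log (1 / ε)

open Classical in
/-- `1` if `τ_k = 0` and `ρ_k` is self-dual, `2` otherwise. -/
noncomputable def weight {F : Type} [Field F] {κ : Type} {n : κ → ℕ}
    (ρ : ∀ k, Representation ℂ Gal(AlgebraicClosure F/F) (Fin (n k) → ℂ)) (τ : κ → ℝ)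
    (k : κ) : ℝ :=
  if τ k = 0 ∧ Nonempty ((ρ k).Equiv (ρ k).dual) then 1 else 2

/-- The `ρ_k`, `k ∈ K`, are irreducible, and for `k ≠ l` the pair `(ρ_k, τ_k)` is equivalent neither to
`(ρ_l, τ_l)` nor to its conjugate `(ρ_l^*, -τ_l)`. -/
def Independent {F : Type} [Field F] {κ : Type} {n : κ → ℕ}
    (ρ : ∀ k, Representation ℂ Gal(AlgebraicClosure F/F) (Fin (n k) → ℂ)) (τ : κ → ℝ)
    (K : Finset κ) : Prop :=
  (∀ k ∈ K, (ρ k).IsIrreducible) ∧ ∀ k ∈ K, ∀ l ∈ K, k ≠ l →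
    (τ k = τ l → IsEmpty ((ρ k).Equiv (ρ l))) ∧ (τ k = -τ l → IsEmpty ((ρ k).Equiv (ρ l).dual))

/-- **Symmetric powers and Artin twists on the edge of absolute convergence.**

`K` is a finite set of indices `k` with pairwise inequivalent and not conjugate (`Independent`) pairs of
an irreducible Artin representation `ρ_k` (character `χ_k`) and a real number `τ_k`; `L_k` is the Euler
product of `Sym^d E ⊗ ρ_k` (arbitrary polynomials, not zero at the point, at finitely many primes), and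
`s_k = 1 + d/2 + iτ_k` a point of its edge.  The `D_j` are Euler factors of the even symmetric powers
`Sym^{2j} E`.  The weight `w_k` is `1` if `τ_k = 0` and `ρ_k` is self-dual, and `2` otherwise.  Let
`x_k(ε) = log |L_k(s_k + ε)| / log(1/ε)` and let `y_j(ε)` be the size of the Euler product of `Sym^{2j} E`
at the real point `1 + j`.  Then for every `η > 0` and all small `ε > 0`

`∑ w_k x_k(ε)² ≤ 1 + ∑_{j=1}^d y_j(ε) + η`.

If the `L_k` and the products of `Sym^{2j} E`, `1 ≤ j ≤ J`, `d ≤ J`, have meromorphic continuations to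
neighbourhoods of `s_k` and `1 + j`, then these have finite orders `m_k` and `-p_j`,

`∑ w_k m_k² ≤ 1 + ∑_{j=1}^d p_j`,

if `∑_{j=1}^d p_j ≤ 0` then `m_k = 0` except possibly for `|m_k| = 1`, `τ_k = 0`, `ρ_k` self-dual and
`|χ_k(g)| ≤ d + 1` for all `g`, and if `d ≥ 1` and `p_j = 0` for `1 ≤ j ≤ 2 d a_k ≤ J`, `a_k` the number
of values of `(Re χ_k)²`, then `m_k = 0`. -/
theorem result (F : Type) [Field F] [NumberField F] (W : WeierstrassCurve (𝓞 F)) (hΔ : W.Δ ≠ 0)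
    (d : ℕ) (κ : Type) (K : Finset κ) (n : κ → ℕ)
    (ρ : ∀ k, Representation ℂ Gal(AlgebraicClosure F/F) (Fin (n k) → ℂ))
    (hρ : ∀ k ∈ K, IsArtin (ρ k)) (τ : κ → ℝ) (hI : Independent ρ τ K)
    (B : κ → HeightOneSpectrum (𝓞 F) → ℂ[X]) (hB : ∀ k ∈ K, IsEulerFactor W d (ρ k) (B k))
    (hB0 : ∀ k ∈ K, ∀ v,
      (B k v).eval ((Ideal.absNorm v.asIdeal : ℂ) ^ (-(1 + d / 2 + τ k * I : ℂ))) ≠ 0)
    (D : ℕ → HeightOneSpectrum (𝓞 F) → ℂ[X])
    (hD : ∀ j, IsEulerFactor W (2 * j) (Representation.trivial ℂ _ (Fin 1 → ℂ)) (D j))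
    (hD0 : ∀ j v, (D j v).eval ((Ideal.absNorm v.asIdeal : ℂ) ^ (-(1 + j : ℂ))) ≠ 0) :
    (∀ η : ℝ, 0 < η → ∀ᶠ ε : ℝ in 𝓝[>] 0,
      (∀ k ∈ K, eulerProduct (B k) (1 + d / 2 + τ k * I + ε) ≠ 0) ∧
      (∀ j ∈ Finset.Icc 1 d, eulerProduct (D j) (1 + j + ε) ≠ 0) ∧
      ∑ k ∈ K, weight ρ τ k * size (B k) d (τ k) ε ^ 2 ≤
        1 + ∑ j ∈ Finset.Icc 1 d, size (D j) (2 * j) 0 ε + η) ∧
    ∀ (J : ℕ) (Λ : κ → ℂ → ℂ) (Γ : ℕ → ℂ → ℂ), d ≤ J →
      (∀ k ∈ K, MeromorphicAt (Λ k) (1 + d / 2 + τ k * I) ∧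
        ∀ᶠ s in 𝓝 (1 + d / 2 + τ k * I : ℂ), 1 + (d : ℝ) / 2 < s.re →
          Λ k s = eulerProduct (B k) s) →
      (∀ j ∈ Finset.Icc 1 J, MeromorphicAt (Γ j) (1 + j) ∧
        ∀ᶠ s in 𝓝 (1 + j : ℂ), 1 + (j : ℝ) < s.re → Γ j s = eulerProduct (D j) s) →
      ∃ (m : κ → ℤ) (p : ℕ → ℤ),
        (∀ k ∈ K, meromorphicOrderAt (Λ k) (1 + d / 2 + τ k * I) = m k) ∧
        (∀ j ∈ Finset.Icc 1 J, meromorphicOrderAt (Γ j) (1 + j) = (-p j : ℤ)) ∧
        ∑ k ∈ K, weight ρ τ k * (m k : ℝ) ^ 2 ≤ 1 + ∑ j ∈ Finset.Icc 1 d, (p j : ℝ) ∧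
        (∑ j ∈ Finset.Icc 1 d, p j ≤ 0 → ∀ k ∈ K, m k ≠ 0 →
          |m k| = 1 ∧ τ k = 0 ∧ Nonempty ((ρ k).Equiv (ρ k).dual) ∧
            ∀ g, ‖(ρ k).character g‖ ≤ d + 1) ∧
        (1 ≤ d → ∀ k ∈ K, 2 * d * (Set.range fun g => ((ρ k).character g).re ^ 2).ncard ≤ J →
          (∀ j ∈ Finset.Icc 1 (2 * d *
            (Set.range fun g => ((ρ k).character g).re ^ 2).ncard), p j = 0) → m k = 0) := by
  have h : Helper91K1.SP.Sys W K (fun _ => d) n ρ τ B D := ⟨hΔ, hρ, hB, hB0, hD, hD0⟩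
  have hnv : ∀ k ∈ K, ∀ᶠ ε : ℝ in 𝓝[>] 0,
      eulerProduct (B k) (1 + d / 2 + τ k * I + ε) ≠ 0 := fun k hk => Helper91K1.SP.nonvan h hk
  refine ⟨fun η hη => ?_, ?_⟩
  · have h1 : ∀ᶠ ε : ℝ in 𝓝[>] 0, ∀ k ∈ K, eulerProduct (B k) (1 + d / 2 + τ k * I + ε) ≠ 0 := by
      rw [Filter.eventually_all_finset]
      exact hnv
    have h2 : ∀ᶠ ε : ℝ in 𝓝[>] 0, ∀ j ∈ Finset.Icc 1 d, eulerProduct (D j) (1 + j + ε) ≠ 0 := by
      rw [Filter.eventually_all_finset]
      exact fun j _ => (Helper91K1.SP.size_D h j).1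
    filter_upwards [h1, h2, Helper91K1.SP.bessel_main h d (Finset.Subset.refl K) (fun _ _ => rfl) hI hη]
      with ε e1 e2 e3
    exact ⟨e1, e2, e3⟩
  intro J Λ Γ hdJ hΛ hΓ
  -- the orders
  have hord : ∀ k, ∃ o : ℤ, k ∈ K → meromorphicOrderAt (Λ k) (1 + d / 2 + τ k * I) = o ∧
      Tendsto (Helper91K1.SP.sz (B k) d (τ k)) (𝓝[>] 0) (𝓝 (-(o : ℝ))) := by
    intro k
    by_cases hk : k ∈ K
    · obtain ⟨o, h1, h2⟩ := Helper91K1.SP.ord_gen (B k) d (τ k) (hnv k hk)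
        (Λ k) (hΛ k hk).1 (hΛ k hk).2
      exact ⟨o, fun _ => ⟨h1, h2⟩⟩
    · exact ⟨0, fun hh => absurd hh hk⟩
  choose m hm using hord
  have e0 : ∀ j : ℕ, (1 + ((2 * j : ℕ) : ℂ) / 2 + ((0 : ℝ) : ℂ) * I) = 1 + j := by
    intro j
    push_cast
    ring
  have hordD : ∀ j, ∃ o : ℤ, j ∈ Finset.Icc 1 J → meromorphicOrderAt (Γ j) (1 + j) = (-o : ℤ) ∧
      Tendsto (Helper91K1.SP.sz (D j) (2 * j) 0) (𝓝[>] 0) (𝓝 (o : ℝ)) := by
    intro j
    by_cases hj : j ∈ Finset.Icc 1 J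
    · obtain ⟨o, h1, h2⟩ := Helper91K1.SP.ord_gen (D j) (2 * j) 0
        (by simp only [e0]; exact (Helper91K1.SP.size_D h j).1) (Γ j)
        (by rw [e0]; exact (hΓ j hj).1)
        (by
          rw [e0]
          filter_upwards [(hΓ j hj).2] with s hs hs'
          refine hs ?_
          have : (1 : ℝ) + ((2 * j : ℕ) : ℝ) / 2 = 1 + j := by
            push_cast
            ring
          rwa [this] at hs')
      rw [e0] at h1
      refine ⟨-o, fun _ => ⟨by rw [neg_neg]; exact h1, ?_⟩⟩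
      push_cast
      exact h2
    · exact ⟨0, fun hh => absurd hh hj⟩
  choose p hp using hordD
  have hPlim : Tendsto (fun ε : ℝ => 1 + ∑ j ∈ Finset.Icc 1 d,
      Helper91K1.SP.sz (D j) (2 * j) 0 ε) (𝓝[>] 0) (𝓝 (1 + ∑ j ∈ Finset.Icc 1 d, (p j : ℝ))) := by
    refine tendsto_const_nhds.add (tendsto_finsetSum _ fun j hj => ?_)
    rw [Finset.mem_Icc] at hj
    exact (hp j (Finset.mem_Icc.2 ⟨hj.1, hj.2.trans hdJ⟩)).2
  -- the case of equality
  have hbasic : ∑ j ∈ Finset.Icc 1 d, p j ≤ 0 → ∀ k ∈ K, m k ≠ 0 →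
      1 + ∑ j ∈ Finset.Icc 1 d, (p j : ℝ) = 1 ∧ (m k : ℝ) ^ 2 = 1 ∧ Helper91K1.SP.wt ρ τ k = 1 := by
    intro hsum k hk hm0
    have h1 : ∑ j ∈ Finset.Icc 1 d, (p j : ℝ) ≤ 0 := by exact_mod_cast hsum
    exact Helper91K1.SP.rig_basic h d hk rfl (hI.1 k hk) hPlim (by linarith) (hm k hk).2 hm0
  refine ⟨m, p, fun k hk => (hm k hk).1, fun j hj => (hp j hj).1,
    Helper91K1.SP.bessel_lim h d (Finset.Subset.refl K) (fun _ _ => rfl) hI hPlim
      (fun k hk => (hm k hk).2), ?_, ?_⟩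
  · intro hsum k hk hm0
    obtain ⟨h1, h2, h3⟩ := hbasic hsum k hk hm0
    have h5 := hPlim
    rw [h1] at h5
    obtain ⟨h6, h7⟩ := Helper91K1.SP.wt_one h3
    refine ⟨?_, h6, h7, fun g => Helper91K1.SP.rig_char h d hk rfl (hI.1 k hk) h5 (hm k hk).2 h2 h3 g⟩
    have h8 : (m k) ^ 2 = 1 := by exact_mod_cast h2
    have h9 : |m k| ^ 2 = 1 := by rw [sq_abs, h8]
    have h10 := abs_nonneg (m k)
    nlinarith
  · intro hd1 k hk hJ hp0
    by_contra hm0
    set a := (Set.range fun g => ((ρ k).character g).re ^ 2).ncard with ha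
    have hapos : 1 ≤ a := by
      obtain ⟨U, hUn, hU, hUρ⟩ := Helper91K1.SP.exists_common K ρ hρ
      have hfin : Finite (Gal(AlgebraicClosure F/F) ⧸ U) :=
        Subgroup.quotient_finite_of_isOpen U hU
      have hfr : (Set.range fun g => ((ρ k).character g).re ^ 2).Finite := by
        have : (Set.range fun g => ((ρ k).character g).re ^ 2) = Set.range
            fun q : Gal(AlgebraicClosure F/F) ⧸ U =>
              ((W540.BE.qrep U (ρ k) (hUρ k hk)).character q).re ^ 2 := by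
          ext x
          constructor
          · rintro ⟨g, rfl⟩
            exact ⟨QuotientGroup.mk g, rfl⟩
          · rintro ⟨q, rfl⟩
            obtain ⟨g, rfl⟩ := QuotientGroup.mk_surjective q
            exact ⟨g, rfl⟩
        rw [this]
        exact Set.finite_range _
      rw [ha, Nat.one_le_iff_ne_zero, Ne, Set.ncard_eq_zero hfr]
      exact Set.range_nonempty _ |>.ne_empty
    have hle : d ≤ 2 * d * a := by nlinarith
    have hsum : ∑ j ∈ Finset.Icc 1 d, p j = 0 :=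
      Finset.sum_eq_zero fun j hj => hp0 j (by
        rw [Finset.mem_Icc] at hj ⊢
        exact ⟨hj.1, hj.2.trans hle⟩)
    obtain ⟨h1, h2, h3⟩ := hbasic hsum.le k hk hm0
    have h5 := hPlim
    rw [h1] at h5
    refine Helper91K1.SP.rig_none h d hd1 hk rfl (hI.1 k hk) h5 (hm k hk).2 h2 h3 fun j hj => ?_
    have h6 := (hp j (Finset.mem_Icc.2
      ⟨(Finset.mem_Icc.1 hj).1, (Finset.mem_Icc.1 hj).2.trans hJ⟩)).2
    rw [hp0 j hj, Int.cast_zero] at h6
    exact h6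

end Pool.Agent.Results.MP_bf61d2_nt.SymmetricPowers
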