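import Pool.Agent.Helper29X1.WG.WtC
import Pool.Agent.Helper29X1.WG.Irr

/-!
# Elliptic curves over number fields: almost all twists by representations of the Weil group

`K` is an arbitrary number field and `E` an elliptic curve over `K`, given by an integral Weierstrass
equation `W` with discriminant `≠ 0` (every elliptic curve over `K` has one).  The theorem is about the
zeros and poles of the functions `L(E ⊗ ρ, s)` on the edge `Re s = 3/2` of the half-plane of absolute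
convergence, for ALL irreducible unitary representations `ρ` of the Weil group of `K`, of all
dimensions, and all heights together: with at most four exceptions `ρ ⊗ N^{-iτ}` there is neither a zero
nor a pole at `3/2 + iτ`.  Nothing is assumed about the analytic continuation of the other twists, and
there is a version without any continuation.

Definitions from `Pool.Agent.N172.HS` (`Defs`, `Gr`, `Rep`, `Pa`) and `Pool.Agent.Helper29X1.WG` (`Tw`):

* `WRep K`: virtual representations `∑ c_j Ind χ_j` with unitary Hecke characters `χ_j` of finite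
  extensions `F_j` of `K` and integers `c_j`; by the theorem of Brauer all finite-dimensional unitary
  representations of the Weil group of `K` are of this kind; `ρ.trace v`: the trace of Frobenius;
* `ρ.inner σ`: the inner product of the characters, by the formula of Mackey; `ρ.IsIrr`:
  `ρ.inner ρ = 1`, that is, `ρ` is irreducible (up to the sign);
* `tw ρ τ = ρ ⊗ N^{-iτ}`.
-/

set_option autoImplicit false

namespace Pool.Agent.Results.MP_bf61d2_nt.WeilGroupTwists

open Complex Filter Topology NumberField IsDedekindDomain Polynomial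
open Pool.Agent.N172.HS (WRep IsHecke)
open Pool.Agent.Helper29X1.WG (tw)

/-- The number of solutions of the affine Weierstrass equation of `V` with coordinates in `R`. -/
noncomputable def affineCount {R : Type} [CommRing R] (V : WeierstrassCurve R) : ℕ :=
  Nat.card {P : R × R // P.2 ^ 2 + V.a₁ * P.1 * P.2 + V.a₃ * P.2 =
    P.1 ^ 3 + V.a₂ * P.1 ^ 2 + V.a₄ * P.1 + V.a₆}

/-- `a_v = q_v + 1 - #E(k_v)`, `k_v` the residue field of `v` and `q_v` its number of elements; there is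
one point at infinity. -/
noncomputable def frobTrace {F : Type} [Field F] [NumberField F] (W : WeierstrassCurve (𝓞 F))
    (v : HeightOneSpectrum (𝓞 F)) : ℤ :=
  (Ideal.absNorm v.asIdeal : ℤ) + 1 - ((affineCount (W.map (Ideal.Quotient.mk v.asIdeal)) : ℤ) + 1)

/-- The Euler product `∏_v B_v(q_v^{-s})⁻¹`. -/
noncomputable def eulerProduct {F : Type} [Field F] [NumberField F]
    (B : HeightOneSpectrum (𝓞 F) → ℂ[X]) (s : ℂ) : ℂ :=
  ∏' v : HeightOneSpectrum (𝓞 F), ((B v).eval ((Ideal.absNorm v.asIdeal : ℂ) ^ (-s)))⁻¹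

/-- `log |L(3/2 + iτ + ε)| / log (1/ε)`, which tends to the order of the pole at `3/2 + iτ` if
there is a meromorphic continuation to a neighbourhood. -/
noncomputable def size {F : Type} [Field F] [NumberField F]
    (B : HeightOneSpectrum (𝓞 F) → ℂ[X]) (τ ε : ℝ) : ℝ :=
  Real.log ‖eulerProduct B (3 / 2 + τ * I + ε)‖ / Real.log (1 / ε)

/-- The polynomials `B v` are Euler factors of `E ⊗ ρ`: at all but finitely many primes
`B_v(z) = ∏ (1 - a_v γ_l z + q_v γ_l² z²)` with numbers `γ_l` of absolute value one and sum the trace of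
Frobenius on `ρ` (its eigenvalues), at the others `B_v` is an arbitrary polynomial which is not zero at
`q_v^{-3/2-iτ}`. -/
def IsRepTwist {F : Type} [Field F] [NumberField F] (W : WeierstrassCurve (𝓞 F)) (ρ : WRep F)
    (τ : ℝ) (B : HeightOneSpectrum (𝓞 F) → ℂ[X]) : Prop :=
  (∃ M : ℕ, ∀ᶠ v in cofinite, ∃ γ : Fin M → ℂ, (∀ l, ‖γ l‖ = 1) ∧ ∑ l, γ l = ρ.trace v ∧
    ∀ z : ℂ, (B v).eval z = ∏ l, (1 - (frobTrace W v : ℂ) * (γ l * z) +
      (Ideal.absNorm v.asIdeal : ℂ) * (γ l * z) ^ 2)) ∧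
  ∀ v, (B v).eval ((Ideal.absNorm v.asIdeal : ℂ) ^ (-(3 / 2 + τ * I : ℂ))) ≠ 0

section

open Pool.Agent.Helper29X1.WG

theorem size_eq {F : Type} [Field F] [NumberField F] (B : HeightOneSpectrum (𝓞 F) → ℂ[X])
    (τ : ℝ) : size B τ = Pool.Agent.W353.EF.size 1 (shift τ B) := by
  funext ε
  unfold size Pool.Agent.W353.EF.size
  rw [shift_LFun]
  have e : (((1 : ℕ) : ℂ) / 2 + 1 + ε + τ * I) = 3 / 2 + τ * I + ε := by push_cast; ring
  rw [e]
  rfl

theorem twist_shift {K : Type} [Field K] [NumberField K] {W : WeierstrassCurve (𝓞 K)}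
    {ρ : WRep K} {τ : ℝ} {B : HeightOneSpectrum (𝓞 K) → ℂ[X]} (hB : IsRepTwist W ρ τ B) :
    IsTwist W (tw ρ τ) (shift τ B) := by
  obtain ⟨⟨M, hM⟩, hB2⟩ := hB
  refine ⟨⟨M, ?_⟩, fun v => ?_⟩
  · filter_upwards [hM] with v hv
    obtain ⟨γ, h2, h3, h4⟩ := hv
    refine ⟨fun l => γ l * (Ideal.absNorm v.asIdeal : ℂ) ^ (-(τ * I : ℂ)), fun l => ?_,
      ?_, fun z => ?_⟩
    · rw [norm_mul, h2, norm_N, one_mul]
    · rw [tw_trace, ← h3, Finset.sum_mul]
    · rw [shift_eval, h4]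
      refine Finset.prod_congr rfl fun l _ => ?_
      rw [show frobTrace W v = Pool.Agent.W540.BE.trv W v from rfl]
      ring
  · rw [shift_eval, ← cpow_add _ _ (absNorm_ne v)]
    have e : (-(τ * I : ℂ)) + (-((1 : ℕ) : ℂ) / 2 - 1) = -(3 / 2 + τ * I : ℂ) := by
      push_cast
      ring
    rw [e]
    exact hB2 v

/-- the order of a meromorphic continuation -/
theorem order_zero_of {K : Type} [Field K] [NumberField K]
    {B : HeightOneSpectrum (𝓞 K) → ℂ[X]} {τ δ : ℝ} (hδ : δ < 1)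
    (h : ∃ᶠ ε : ℝ in 𝓝[>] 0, |Pool.Agent.W353.EF.size 1 (shift τ B) ε| < δ)
    (hne : ∀ᶠ ε : ℝ in 𝓝[>] 0,
      Pool.Agent.W353.EF.LFun (shift τ B) (((1 : ℕ) : ℂ) / 2 + 1 + ε) ≠ 0)
    {Λ : ℂ → ℂ} (h1 : MeromorphicAt Λ (3 / 2 + τ * I))
    (h2 : ∀ᶠ s in 𝓝 (3 / 2 + τ * I : ℂ), 3 / 2 < s.re → Λ s = eulerProduct B s) :
    meromorphicOrderAt Λ (3 / 2 + τ * I) = 0 := by
  have e0 : (((1 : ℕ) : ℂ) / 2 + 1 + τ * I) = 3 / 2 + τ * I := by push_cast; ring
  have ht : Tendsto (fun ε : ℝ => 3 / 2 + τ * I + (ε : ℂ)) (𝓝[>] 0)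
      (𝓝[≠] (3 / 2 + τ * I)) := by
    have := PZ.tendsto_pt 1 τ
    rwa [e0] at this
  have ht1 : Tendsto (fun ε : ℝ => 3 / 2 + τ * I + (ε : ℂ)) (𝓝[>] 0) (𝓝 (3 / 2 + τ * I)) :=
    ht.mono_right nhdsWithin_le_nhds
  have hre : ∀ {ε : ℝ}, 0 < ε → (3 / 2 : ℝ) < (3 / 2 + τ * I + (ε : ℂ)).re := fun {ε} hε => by
    simp only [add_re, mul_re, ofReal_re, ofReal_im, I_re, I_im, mul_zero, zero_mul, sub_zero,
      add_zero]
    norm_num
    exact hε
  have hL : ∀ᶠ ε : ℝ in 𝓝[>] 0, Λ (3 / 2 + τ * I + ε) =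
      Pool.Agent.W353.EF.LFun (shift τ B) (((1 : ℕ) : ℂ) / 2 + 1 + ε) := by
    filter_upwards [ht1.eventually h2, self_mem_nhdsWithin] with ε h5 h6
    rw [h5 (hre h6), shift_LFun]
    have e : (((1 : ℕ) : ℂ) / 2 + 1 + ε + τ * I) = 3 / 2 + τ * I + ε := by push_cast; ring
    rw [e]
    rfl
  have h4 : meromorphicOrderAt Λ (3 / 2 + τ * I) ≠ ⊤ := by
    intro h5
    rw [meromorphicOrderAt_eq_top_iff] at h5
    obtain ⟨ε, h7, h8, h9⟩ := ((ht.eventually h5).and (hne.and hL)).exists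
    exact h8 (h9 ▸ h7)
  obtain ⟨m, hm⟩ := WithTop.ne_top_iff_exists.1 h4
  have hm' := hm.symm
  rw [meromorphicOrderAt_eq_int_iff h1] at hm'
  obtain ⟨g, hg, hg0, hgL⟩ := hm'
  have ho : Pool.Agent.Y149.Ord.HasOrder 1 (shift τ B) m := by
    refine ⟨g (3 / 2 + τ * I), hg0, ?_⟩
    refine (hg.continuousAt.tendsto.comp ht1).congr' ?_
    filter_upwards [ht.eventually hgL, hL, self_mem_nhdsWithin] with ε h5 h6 h7
    have hε : (0 : ℝ) < ε := h7
    rw [← h6, h5]
    have hε0 : (ε : ℂ) ≠ 0 := by exact_mod_cast hε.ne'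
    rw [add_sub_cancel_left, smul_eq_mul, ← mul_assoc, ← zpow_add₀ hε0, neg_add_cancel, zpow_zero,
      one_mul]
    rfl
  rw [← hm, zero_of_small hδ h ho]
  rfl

end

open Pool.Agent.Helper29X1.WG in
/-- **Almost all twists of an elliptic curve over a number field by irreducible representations of the
Weil group have no zero and no pole on the edge.**  For each `δ > 0` there are at most `4/δ²` irreducible
unitary representations `σ_k` of the Weil group of `K`, pairwise orthogonal, such that for every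
irreducible `ρ` and every real `τ`, for which `ρ ⊗ N^{-iτ}` is orthogonal to them:
`|log |L(E ⊗ ρ, 3/2 + iτ + ε)|| < δ log(1/ε)` for arbitrarily small `ε > 0`, and, if `δ < 1`, every
continuation of `L(E ⊗ ρ, s)` which is meromorphic at `3/2 + iτ` has neither a zero nor a pole there.
For `δ` close to `1` these are at most four representations. -/
theorem result (K : Type) [Field K] [NumberField K] (W : WeierstrassCurve (𝓞 K)) (hΔ : W.Δ ≠ 0)
    (δ : ℝ) (hδ : 0 < δ) :
    ∃ (s : ℕ) (σ : Fin s → WRep K), s * δ ^ 2 ≤ 4 ∧ (∀ k, (σ k).IsIrr) ∧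
      (∀ k l, k ≠ l → (σ k).inner (σ l) = 0) ∧
      ∀ (ρ : WRep K) (τ : ℝ) (B : HeightOneSpectrum (𝓞 K) → ℂ[X]), ρ.IsIrr →
        (∀ k, (tw ρ τ).inner (σ k) = 0) → IsRepTwist W ρ τ B →
        (∃ᶠ ε : ℝ in 𝓝[>] 0, |size B τ ε| < δ) ∧
        (δ < 1 → ∀ Λ : ℂ → ℂ, MeromorphicAt Λ (3 / 2 + τ * I) →
          (∀ᶠ s in 𝓝 (3 / 2 + τ * I : ℂ), 3 / 2 < s.re → Λ s = eulerProduct B s) →
          meromorphicOrderAt Λ (3 / 2 + τ * I) = 0) := by
  obtain ⟨s, σ, h1, h2, h3, h4⟩ := irr_exceptions W hΔ hδ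
  refine ⟨s, σ, h1, h2, h3, fun ρ τ B hρ ho hB => ?_⟩
  have hB' := twist_shift hB
  have h5 := h4 (tw ρ τ) (inner_tw_self hρ τ) ho _ hB'
  rw [size_eq]
  exact ⟨h5, fun hδ1 Λ h6 h7 => order_zero_of hδ1 h5 (twist_size W hΔ hB').1 h6 h7⟩

end Pool.Agent.Results.MP_bf61d2_nt.WeilGroupTwists
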